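import Pool.Agent.H76.NP.Targets

/-!
# nvp_modules, CNT: the face numbers of the example (helper5)
-/

set_option autoImplicit false

open Polynomial

namespace Pool.Agent.H5.NP

open Pool.Agent.H76.NP

/-- sum of two coefficient lists -/
def addL : List ℕ → List ℕ → List ℕ
  | [], L => L
  | L, [] => L
  | a :: L, b :: L' => (a + b) :: addL L L'

/-- the numbers of faces by cardinality, with vertices smaller than `k` and in the mask `m` -/
def cl : ℕ → ℕ → List ℕ
  | 0, _ => [1]
  | k + 1, m => bif m.testBit k && (MF.getD k 0).testBit k then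
      addL (cl k m) (0 :: cl k (m &&& MF.getD k 0)) else cl k m

/-- evaluation of a coefficient list -/
noncomputable def ev : List ℕ → (ℕ → ℤ[X]) → ℤ[X]
  | [], _ => 0
  | a :: L, g => (a : ℤ[X]) * g 0 + ev L (fun n => g (n + 1))

theorem ev_addL (L L' : List ℕ) (g : ℕ → ℤ[X]) : ev (addL L L') g = ev L g + ev L' g := by
  induction L generalizing L' g with
  | nil => simp [addL, ev]
  | cons a L ih =>
    cases L' with
    | nil => simp [addL, ev]
    | cons b L' =>
      simp only [addL, ev, ih]
      push_cast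
      ring

/-- the vertices smaller than `k` -/
def sk (k : ℕ) : Finset (Fin 24) := Finset.univ.filter fun v => v.val < k

theorem sk_succ (k : ℕ) (hk : k < 24) : sk (k + 1) = insert ⟨k, hk⟩ (sk k) := by
  ext v
  simp only [sk, Finset.mem_filter, Finset.mem_univ, true_and, Finset.mem_insert, Fin.ext_iff]
  omega

theorem notMem_sk (k : ℕ) (hk : k < 24) : (⟨k, hk⟩ : Fin 24) ∉ sk k := by
  simp [sk]

/-- the weight of a set -/
noncomputable def wt (m : ℕ) (g : ℕ → ℤ[X]) (σ : Finset (Fin 24)) : ℤ[X] :=
  if Face (ofMasks MF) σ ∧ ∀ x ∈ σ, m.testBit x.val = true then g σ.card else 0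

theorem sym : ∀ x y : Fin 24, ofMasks MF x y = ofMasks MF y x := by decide +kernel

theorem face_insert (k : Fin 24) (σ : Finset (Fin 24)) :
    Face (ofMasks MF) (insert k σ) ↔
      ofMasks MF k k = true ∧ Face (ofMasks MF) σ ∧ ∀ x ∈ σ, ofMasks MF k x = true := by
  constructor
  · intro h
    refine ⟨h k (Finset.mem_insert_self _ _) k (Finset.mem_insert_self _ _), ?_, ?_⟩
    · intro x hx y hy
      exact h x (Finset.mem_insert_of_mem hx) y (Finset.mem_insert_of_mem hy)
    · intro x hx
      exact h k (Finset.mem_insert_self _ _) x (Finset.mem_insert_of_mem hx)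
  · rintro ⟨h1, h2, h3⟩ x hx y hy
    rw [Finset.mem_insert] at hx hy
    rcases hx with rfl | hx
    · rcases hy with rfl | hy
      · exact h1
      · exact h3 y hy
    · rcases hy with rfl | hy
      · rw [sym]
        exact h3 x hx
      · exact h2 x hx y hy

theorem main (k : ℕ) (hk : k ≤ 24) (m : ℕ) (g : ℕ → ℤ[X]) :
    ∑ σ ∈ (sk k).powerset, wt m g σ = ev (cl k m) g := by
  induction k generalizing m g with
  | zero =>
    have h0 : sk 0 = ∅ := by
      ext v
      simp [sk]
    rw [h0, Finset.powerset_empty, Finset.sum_singleton]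
    have h1 : Face (ofMasks MF) ∅ := fun x hx => absurd hx (Finset.notMem_empty x)
    simp [wt, cl, ev, h1]
  | succ k ih =>
    have hk' : k < 24 := hk
    rw [sk_succ k hk', Finset.sum_powerset_insert (notMem_sk k hk'), ih (by omega)]
    have hins : ∀ σ ∈ (sk k).powerset, wt m g (insert ⟨k, hk'⟩ σ) =
        if m.testBit k && (MF.getD k 0).testBit k then
          wt (m &&& MF.getD k 0) (fun n => g (n + 1)) σ else 0 := by
      intro σ hσ
      rw [Finset.mem_powerset] at hσ
      have hn : (⟨k, hk'⟩ : Fin 24) ∉ σ := fun h => notMem_sk k hk' (hσ h)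
      have hiff : (Face (ofMasks MF) (insert ⟨k, hk'⟩ σ) ∧
          ∀ x ∈ insert (⟨k, hk'⟩ : Fin 24) σ, m.testBit x.val = true) ↔
          ((m.testBit k && (MF.getD k 0).testBit k) = true ∧
            (Face (ofMasks MF) σ ∧ ∀ x ∈ σ, (m &&& MF.getD k 0).testBit x.val = true)) := by
        rw [face_insert]
        simp only [Finset.forall_mem_insert, Nat.testBit_land, Bool.and_eq_true]
        constructor
        · rintro ⟨⟨h1, h2, h3⟩, h4, h5⟩
          exact ⟨⟨h4, h1⟩, h2, fun x hx => ⟨h5 x hx, h3 x hx⟩⟩
        · rintro ⟨⟨h4, h1⟩, h2, h3⟩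
          exact ⟨⟨h1, h2, fun x hx => (h3 x hx).2⟩, h4, fun x hx => (h3 x hx).1⟩
      unfold wt
      by_cases hb : (m.testBit k && (MF.getD k 0).testBit k) = true
      · rw [if_pos hb]
        by_cases hc : Face (ofMasks MF) σ ∧ ∀ x ∈ σ, (m &&& MF.getD k 0).testBit x.val = true
        · rw [if_pos hc, if_pos (hiff.2 ⟨hb, hc⟩), Finset.card_insert_of_notMem hn]
        · rw [if_neg hc, if_neg (fun h => hc (hiff.1 h).2)]
      · rw [if_neg hb, if_neg (fun h => hb (hiff.1 h).1)]
    rw [Finset.sum_congr rfl hins]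
    by_cases hb : (m.testBit k && (MF.getD k 0).testBit k) = true
    · simp only [if_pos hb]
      rw [ih (by omega)]
      simp only [cl, hb, cond_true, ev_addL, ev]
      push_cast
      ring
    · simp only [if_neg hb, Finset.sum_const_zero, add_zero]
      rw [Bool.not_eq_true] at hb
      simp only [cl, hb, cond_false]

theorem val : cl 24 16777215 = [1, 24, 201, 743, 1344, 1167, 389] := by decide +kernel

theorem bits : ∀ x : Fin 24, (16777215 : ℕ).testBit x.val = true := by decide +kernel

theorem pf_CNT : T_CNT := by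
  intro g
  have h1 : ∑ σ ∈ (Finset.univ : Finset (Finset (Fin 24))).filter (Face (ofMasks MF)), g σ.card =
      ∑ σ ∈ (sk 24).powerset, wt 16777215 g σ := by
    have h2 : sk 24 = Finset.univ := by
      ext v
      simp [sk]
    rw [h2, Finset.powerset_univ, Finset.sum_filter]
    apply Finset.sum_congr rfl
    intro σ _
    unfold wt
    by_cases hc : Face (ofMasks MF) σ
    · rw [if_pos hc, if_pos ⟨hc, fun x _ => bits x⟩]
    · rw [if_neg hc, if_neg (fun h => hc h.1)]
  rw [h1, main 24 le_rfl, val]
  simp only [ev]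
  push_cast
  ring

end Pool.Agent.H5.NP
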